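import Mathlib

/-!
# Project G, G-DESC: divided differences for an automorphism of prime order of a local domain
-/

set_option autoImplicit false

namespace Pool.Agent.Y894.G

open Polynomial Finset IsLocalRing

section newton

variable {S : Type} [CommRing S] (τ : S →+* S) (b c : S)

/-- the nodes -/
def nd (k : ℕ) : S := τ^[k] b

lemma nd_succ (k : ℕ) : τ (nd τ b k) = nd τ b (k + 1) := by
  unfold nd
  rw [Function.iterate_succ_apply']

/-- the Newton basis -/
noncomputable def w (k : ℕ) : S[X] := ∏ i ∈ range k, (X - C (nd τ b i))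

/-- the shifted Newton basis -/
noncomputable def w' (k : ℕ) : S[X] := ∏ i ∈ range k, (X - C (nd τ b (i + 1)))

lemma w_map (k : ℕ) : (w τ b k).map τ = w' τ b k := by
  unfold w w'
  rw [Polynomial.map_prod]
  refine prod_congr rfl fun i _ => ?_
  rw [Polynomial.map_sub, map_X, map_C, nd_succ]

lemma w_succ (k : ℕ) : w τ b (k + 1) - w' τ b (k + 1) =
    C (nd τ b (k + 1) - nd τ b 0) * w' τ b k := by
  have h1 : w τ b (k + 1) = w' τ b k * (X - C (nd τ b 0)) := by
    unfold w w'
    rw [prod_range_succ']
  have h2 : w' τ b (k + 1) = w' τ b k * (X - C (nd τ b (k + 1))) := by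
    unfold w'
    rw [prod_range_succ]
  rw [h1, h2, C_sub]
  ring

/-- the interpolation polynomial built from divided differences is invariant -/
theorem newton [IsDomain S] (p : ℕ) (hp : 0 < p) (hb : τ^[p] b = b) (hc : τ^[p] c = c)
    (hne : ∀ k, 0 < k → k < p → nd τ b k ≠ nd τ b 0) (D : ℕ → S) (h0 : D 0 = c)
    (hD : ∀ k, k + 1 < p → τ (D k) - D k = (nd τ b (k + 1) - nd τ b 0) * D (k + 1)) :
    ∃ N : S[X], N.map τ = N ∧ N.eval b = c := by
  obtain ⟨m, rfl⟩ : ∃ m, p = m + 1 := ⟨p - 1, by omega⟩
  let N : S[X] := ∑ k ∈ range (m + 1), C (D k) * w τ b k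
  have hmap : N.map τ = ∑ k ∈ range (m + 1), C (τ (D k)) * w' τ b k := by
    simp only [N]
    rw [Polynomial.map_sum]
    refine sum_congr rfl fun k _ => ?_
    rw [Polynomial.map_mul, map_C, w_map]
  have key : ∀ n, n < m + 1 → ∑ k ∈ range (n + 1), C (D k) * w τ b k -
      ∑ k ∈ range (n + 1), C (τ (D k)) * w' τ b k = C (D n - τ (D n)) * w' τ b n := by
    intro n
    induction n with
    | zero =>
      intro _
      rw [sum_range_one, sum_range_one]
      unfold w w'
      rw [range_zero, prod_empty, prod_empty, C_sub]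
      ring
    | succ n ih =>
      intro hn
      have h1 := ih (by omega)
      rw [sum_range_succ _ (n + 1), sum_range_succ _ (n + 1)]
      have h2 := hD n (by omega)
      have h3 : D n - τ (D n) = -((nd τ b (n + 1) - nd τ b 0) * D (n + 1)) := by
        linear_combination -h2
      have h4 := w_succ τ b n
      rw [h3, C_neg, C_mul] at h1
      rw [C_sub]
      linear_combination h1 + C (D (n + 1)) * h4
  have hN := key m (by omega)
  have hN' : N - N.map τ = C (D m - τ (D m)) * w' τ b m := by
    rw [hmap]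
    exact hN
  have hev0 : N.eval (nd τ b 0) = c := by
    simp only [N]
    rw [eval_finset_sum, sum_eq_single 0]
    · unfold w
      rw [range_zero, prod_empty, mul_one, eval_C, h0]
    · intro k _ hk
      obtain ⟨k, rfl⟩ := Nat.exists_eq_succ_of_ne_zero hk
      unfold w
      rw [eval_mul, prod_range_succ', eval_mul]
      simp
    · intro h
      exact absurd (mem_range.2 hp) h
  have hshift : ∀ x, (N.map τ).eval (τ x) = τ (N.eval x) := by
    intro x
    rw [eval_map, eval₂_hom]
  have hw'0 : ∀ i, i < m → (w' τ b m).eval (nd τ b (i + 1)) = 0 := by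
    intro i hi
    unfold w'
    rw [eval_prod]
    apply prod_eq_zero (mem_range.2 hi)
    simp
  have hev : ∀ i, i ≤ m → N.eval (nd τ b i) = τ^[i] c := by
    intro i
    induction i with
    | zero =>
      intro _
      exact hev0
    | succ i ih =>
      intro hi
      have h1 := congrArg (fun P => P.eval (nd τ b (i + 1))) hN'
      simp only [eval_sub, eval_mul, hw'0 i (by omega), mul_zero] at h1
      rw [← nd_succ, hshift, ih (by omega), nd_succ, sub_eq_zero] at h1
      rw [h1, Function.iterate_succ_apply']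
  have hlast : nd τ b (m + 1) = nd τ b 0 := hb
  have hE : D m - τ (D m) = 0 := by
    have h1 := congrArg (fun P => P.eval (nd τ b 0)) hN'
    simp only [eval_sub, eval_mul, eval_C] at h1
    rw [hev0] at h1
    nth_rewrite 1 [← hlast] at h1
    rw [← nd_succ, hshift, hev m le_rfl, ← Function.iterate_succ_apply' (⇑τ) m c, hc,
      sub_self] at h1
    rcases mul_eq_zero.1 h1.symm with h2 | h2
    · exact h2
    · exfalso
      unfold w' at h2
      rw [eval_prod, prod_eq_zero_iff] at h2
      obtain ⟨i, hi, h3⟩ := h2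
      rw [mem_range] at hi
      rw [eval_sub, eval_X, eval_C, sub_eq_zero] at h3
      exact hne (i + 1) (by omega) (by omega) h3.symm
  refine ⟨N, ?_, hev0⟩
  rw [hE, C_0, zero_mul, sub_eq_zero] at hN'
  exact hN'.symm

end newton

section local_

variable {S : Type} [CommRing S] [IsDomain S] [IsLocalRing S] (p : ℕ) (hp : p.Prime) (τ : S →+* S)
  (hτ : ∀ x, τ^[p] x = x) (hm : ∀ x, τ x - x ∈ maximalIdeal S) (b : S) (hb : τ b - b ≠ 0)
  (hdiv : ∀ x, (τ b - b) ∣ τ x - x)

include hm in
lemma res_eq (x : S) : residue S (τ x) = residue S x := by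
  rw [← sub_eq_zero, ← map_sub, residue_eq_zero_iff]
  exact hm x

include hm in
lemma res_iter (k : ℕ) (x : S) : residue S (τ^[k] x) = residue S x := by
  induction k with
  | zero => rfl
  | succ k ih => rw [Function.iterate_succ_apply', res_eq τ hm, ih]

include hp hτ hm hb hdiv in
/-- the nodes differ by units times the difference of the first two -/
theorem unit_diff (k : ℕ) (hk0 : 0 < k) (hk : k < p) :
    ∃ u : S, IsUnit u ∧ nd τ b k - nd τ b 0 = (τ b - b) * u := by
  set t := τ b - b with ht
  obtain ⟨ε, hε⟩ : ∃ ε, τ t = t * ε := by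
    have h1 := hdiv (τ b)
    obtain ⟨ε, h2⟩ := h1
    refine ⟨ε, ?_⟩
    rw [ht, map_sub]
    exact h2
  let E : ℕ → S := fun k => ∏ l ∈ range k, τ^[l] ε
  have hE : ∀ k, τ^[k] t = t * E k := by
    intro k
    induction k with
    | zero =>
      simp [E]
    | succ k ih =>
      rw [Function.iterate_succ_apply, hε, iterate_map_mul, ih]
      simp only [E]
      rw [prod_range_succ]
      ring
  have hresE : ∀ k, residue S (E k) = residue S ε ^ k := by
    intro k
    simp only [E]
    rw [map_prod, prod_congr rfl (fun l _ => res_iter τ hm l ε), prod_const, card_range]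
  have hEp : E p = 1 := by
    have h1 := hE p
    rw [hτ] at h1
    apply mul_left_cancel₀ hb
    rw [← h1, mul_one]
  have hep : residue S ε ^ p = 1 := by
    rw [← hresE, hEp, map_one]
  have hsum : ∀ k, nd τ b k - nd τ b 0 = t * ∑ i ∈ range k, E i := by
    intro k
    induction k with
    | zero => simp
    | succ k ih =>
      have h1 : nd τ b (k + 1) - nd τ b k = τ^[k] t := by
        rw [ht, iterate_map_sub]
        unfold nd
        rw [Function.iterate_succ_apply]
      rw [sum_range_succ, mul_add, ← ih, ← hE, ← h1]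
      ring
  refine ⟨∑ i ∈ range k, E i, ?_, hsum k⟩
  rw [← residue_ne_zero_iff_isUnit, map_sum, sum_congr rfl (fun i _ => hresE i)]
  set e := residue S ε with he
  intro h0
  have hek : e ^ k = 1 := by
    have h1 : (∑ i ∈ range k, e ^ i) * (e - 1) = e ^ k - 1 := geom_sum_mul e k
    rw [h0, zero_mul] at h1
    exact (sub_eq_zero.1 h1.symm)
  have hcop : Nat.Coprime k p := Nat.Coprime.symm (Nat.coprime_of_lt_prime (by omega) hk hp)
  have he1 : e = 1 := by
    have h1 : orderOf e ∣ Nat.gcd k p :=
      Nat.dvd_gcd (orderOf_dvd_of_pow_eq_one hek) (orderOf_dvd_of_pow_eq_one hep)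
    rw [Nat.Coprime.gcd_eq_one hcop, Nat.dvd_one, orderOf_eq_one_iff] at h1
    exact h1
  have hk' : ((k : ℕ) : ResidueField S) = 0 := by
    rw [he1] at h0
    simpa using h0
  have hp' : ((p : ℕ) : ResidueField S) ≠ 0 := by
    intro h1
    have h2 : (1 : ResidueField S) = 0 := by
      have h3 := Nat.gcd_eq_gcd_ab k p
      rw [Nat.Coprime.gcd_eq_one hcop] at h3
      have h4 := congrArg (fun z : ℤ => (z : ResidueField S)) h3
      push_cast at h4
      rw [h4, hk', h1]
      ring
    exact one_ne_zero h2
  have hpu : IsUnit ((p : ℕ) : S) := by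
    rw [← residue_ne_zero_iff_isUnit, map_natCast]
    exact hp'
  -- the trace
  let T : S → S := fun y => ∑ i ∈ range p, τ^[i] y
  have hT : ∀ y, τ (T y) = T y := by
    intro y
    have h1 : τ (T y) = ∑ i ∈ range p, τ^[i + 1] y := by
      simp only [T]
      rw [map_sum]
      exact sum_congr rfl fun i _ => (Function.iterate_succ_apply' (⇑τ) i y).symm
    have h2 := sum_range_succ' (fun i => τ^[i] y) p
    have h3 := sum_range_succ (fun i => τ^[i] y) p
    rw [h1]
    simp only [hτ, Function.iterate_zero, id_eq] at h2 h3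
    simp only [T]
    linear_combination h3 - h2
  have hTi : ∀ y i, τ^[i] (T y) = T y := by
    intro y i
    induction i with
    | zero => rfl
    | succ i ih => rw [Function.iterate_succ_apply', ih, hT]
  have hTT : ∀ y, T (T y) = p * T y := by
    intro y
    have h1 : T (T y) = ∑ i ∈ range p, T y := by
      show ∑ i ∈ range p, τ^[i] (T y) = _
      exact sum_congr rfl fun i _ => hTi y i
    rw [h1, sum_const, card_range, nsmul_eq_mul]
  have hTs : ∀ y z, T (y - z) = T y - T z := by
    intro y z
    simp only [T]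
    rw [← sum_sub_distrib]
    exact sum_congr rfl fun i _ => iterate_map_sub τ i y z
  have hTp : ∀ y, T (p * y) = p * T y := by
    intro y
    simp only [T]
    rw [mul_sum]
    refine sum_congr rfl fun i _ => ?_
    rw [iterate_map_mul]
    congr 1
    have : ∀ i : ℕ, τ^[i] ((p : ℕ) : S) = (p : ℕ) := by
      intro i
      induction i with
      | zero => rfl
      | succ i ih => rw [Function.iterate_succ_apply', ih, map_natCast]
    exact this i
  have hz : ∀ y, ∃ z, τ z - z = p * y - T y := by
    intro y
    refine ⟨∑ i ∈ range p, (i : S) * τ^[i] y, ?_⟩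
    have h1 : τ (∑ i ∈ range p, (i : S) * τ^[i] y) = ∑ i ∈ range p, (i : S) * τ^[i + 1] y := by
      rw [map_sum]
      refine sum_congr rfl fun i _ => ?_
      rw [map_mul, map_natCast, Function.iterate_succ_apply']
    have h2 := sum_range_succ' (fun i => (i : S) * τ^[i] y) p
    have h3 := sum_range_succ (fun i => (i : S) * τ^[i] y) p
    have h4 : ∑ i ∈ range p, ((i + 1 : ℕ) : S) * τ^[i + 1] y =
        ∑ i ∈ range p, (i : S) * τ^[i + 1] y + ∑ i ∈ range p, τ^[i + 1] y := by
      rw [← sum_add_distrib]
      refine sum_congr rfl fun i _ => ?_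
      push_cast
      ring
    have h5 : ∑ i ∈ range p, τ^[i + 1] y = T y := by
      rw [← hT y]
      simp only [T]
      rw [map_sum]
      exact sum_congr rfl fun i _ => Function.iterate_succ_apply' (⇑τ) i y
    simp only [hτ, Nat.cast_zero, zero_mul, add_zero] at h2 h3
    rw [h4, h5] at h2
    rw [h1]
    linear_combination h3 - h2
  -- the contradiction
  set y0 := (p : S) * b - T b with hy0
  have hTy0 : T y0 = 0 := by
    rw [hy0, hTs, hTp, hTT, sub_self]
  obtain ⟨z, hz0⟩ := hz y0
  rw [hTy0, sub_zero] at hz0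
  obtain ⟨g, hg⟩ := hdiv z
  rw [hz0] at hg
  have hty : ∃ c0, y0 = t * c0 := by
    obtain ⟨v, hv⟩ := hpu.exists_left_inv
    refine ⟨v * g, ?_⟩
    calc y0 = (v * p) * y0 := by rw [hv, one_mul]
      _ = v * (p * y0) := by ring
      _ = v * (t * g) := by rw [hg]
      _ = _ := by ring
  obtain ⟨c0, hc0⟩ := hty
  have h1 : τ y0 - y0 = p * t := by
    rw [hy0, map_sub, map_mul, map_natCast, hT, ht]
    ring
  rw [hc0, map_mul, hε] at h1
  have h2 : (p : S) = ε * τ c0 - c0 := by
    apply mul_left_cancel₀ hb
    linear_combination -h1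
  have h3 := congrArg (residue S) h2
  rw [map_sub, map_mul, res_eq τ hm, map_natCast, ← he, he1, one_mul, sub_self] at h3
  exact hp' h3

include hp hτ hm hb hdiv in
/-- Every element is the value at `b` of an invariant polynomial. -/
theorem core (c : S) : ∃ N : S[X], N.map τ = N ∧ N.eval b = c := by
  have hstep : ∀ (k : ℕ) (y : S), ∃ z, k + 1 < p →
      τ y - y = (nd τ b (k + 1) - nd τ b 0) * z := by
    intro k y
    by_cases hk : k + 1 < p
    · obtain ⟨u, hu, h1⟩ := unit_diff p hp τ hτ hm b hb hdiv (k + 1) (by omega) hk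
      obtain ⟨g, hg⟩ := hdiv y
      obtain ⟨v, hv⟩ := hu.exists_left_inv
      refine ⟨v * g, fun _ => ?_⟩
      rw [h1, hg]
      linear_combination -(τ b - b) * g * hv
    · exact ⟨0, fun h => absurd h hk⟩
  choose F hF using hstep
  refine newton τ b c p hp.pos (hτ b) (hτ c) ?_ (fun k => Nat.rec c (fun k y => F k y) k) rfl ?_
  · intro k h0 hk h1
    obtain ⟨u, hu, h2⟩ := unit_diff p hp τ hτ hm b hb hdiv k h0 hk
    rw [h1, sub_self] at h2
    rcases mul_eq_zero.1 h2.symm with h3 | h3
    · exact hb h3
    · exact hu.ne_zero h3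
  · intro k hk
    exact hF k _ hk

end local_

end Pool.Agent.Y894.G
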