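import Pool.Agent.Y894.G.Loc

/-!
# Project G, G-DESC: invariants of an automorphism of prime order whose fixed ideal is locally
principal
-/

set_option autoImplicit false
set_option linter.unusedSectionVars false

namespace Pool.Agent.Y894.G

open Polynomial Finset IsLocalRing

section general

variable {B : Type} [CommRing B] {p : ℕ} (σ : B ≃+* B) (hσ : ∀ x, σ^[p] x = x)

include hσ in
lemma iter_mul (x : B) (m : ℕ) : σ^[p * m] x = x := by
  have h : Function.IsPeriodicPt σ p x := hσ x
  exact h.mul_const m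

/-- if `k` is prime to `p` then `σ` is a power of `σ ^ k` -/
lemma exists_inv (hp : p.Prime) {k : ℕ} (h0 : 0 < k) (hk : k < p) :
    ∃ m n : ℕ, m * k = p * n + 1 := by
  have hcop : Nat.Coprime k p := Nat.Coprime.symm (Nat.coprime_of_lt_prime (by omega) hk hp)
  obtain ⟨m, _, hm⟩ := Nat.exists_mul_mod_eq_one_of_coprime hcop hp.one_lt
  refine ⟨m, k * m / p, ?_⟩
  have h1 := Nat.div_add_mod (k * m) p
  rw [hm] at h1
  rw [h1, mul_comm]

include hσ in
lemma iter_inv (hp : p.Prime) {k : ℕ} (h0 : 0 < k) (hk : k < p) :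
    ∃ m : ℕ, ∀ x, σ^[m * k] x = σ x := by
  obtain ⟨m, n, h⟩ := exists_inv hp h0 hk
  refine ⟨m, fun x => ?_⟩
  rw [h, add_comm, Function.iterate_add_apply, iter_mul σ hσ]
  rfl

include hσ in
/-- an element whose translates are distinct at a point where `σ` is not trivial -/
theorem exists_sep (hp : p.Prime) (Q : Ideal B) [hQ : Q.IsPrime] (c : B) (hc : σ c - c ∉ Q) :
    ∃ b : B, ∀ k, 0 < k → k < p → σ^[k] b - b ∉ Q := by
  by_cases hst : ∀ x, x ∈ Q → σ x ∈ Q
  · -- stable case
    refine ⟨c, fun k h0 hk h => hc ?_⟩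
    have hit : ∀ n x, x ∈ Q → σ^[n] x ∈ Q := by
      intro n
      induction n with
      | zero => exact fun x hx => hx
      | succ n ih =>
        intro x hx
        rw [Function.iterate_succ_apply']
        exact hst _ (ih x hx)
    obtain ⟨m, hm⟩ := iter_inv σ hσ hp h0 hk
    have h1 : ∀ m : ℕ, σ^[m * k] c - c ∈ Q := by
      intro m
      induction m with
      | zero =>
        rw [zero_mul, Function.iterate_zero, id_eq, sub_self]
        exact Q.zero_mem
      | succ m ih =>
        have h2 : σ^[(m + 1) * k] c - c = σ^[k] (σ^[m * k] c - c) + (σ^[k] c - c) := by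
          rw [iterate_map_sub, ← Function.iterate_add_apply, add_mul, one_mul, add_comm (m * k) k]
          ring
        rw [h2]
        exact Q.add_mem (hit _ _ ih) h
    rw [← hm c]
    exact h1 m
  · -- the moving case
    have hnot : ∀ k, 0 < k → k < p → ¬ Q ≤ Q.comap ((σ : B →+* B) ^ k) := by
      intro k h0 hk h
      apply hst
      obtain ⟨m, hm⟩ := iter_inv σ hσ hp h0 hk
      have h1 : ∀ (m : ℕ) x, x ∈ Q → σ^[m * k] x ∈ Q := by
        intro m
        induction m with
        | zero =>
          intro x hx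
          rw [zero_mul]
          exact hx
        | succ m ih =>
          intro x hx
          rw [add_mul, one_mul, add_comm (m * k) k, Function.iterate_add_apply]
          have h2 := h (ih x hx)
          rw [Ideal.mem_comap, RingHom.coe_pow] at h2
          exact h2
      intro x hx
      rw [← hm x]
      exact h1 m x hx
    have hav : ¬ ((Q : Set B) ⊆ ⋃ k ∈ (↑((Ioo 0 p) : Finset ℕ) : Set ℕ),
        (Q.comap ((σ : B →+* B) ^ k) : Ideal B)) := by
      rw [Ideal.subset_union_prime 0 0 (fun i _ _ _ => inferInstance)]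
      rintro ⟨k, hk, h⟩
      rw [mem_Ioo] at hk
      exact hnot k hk.1 hk.2 h
    rw [Set.not_subset] at hav
    obtain ⟨b, hb, hb'⟩ := hav
    refine ⟨b, fun k h0 hk h => hb' ?_⟩
    rw [Set.mem_iUnion₂]
    refine ⟨k, ?_, ?_⟩
    · rw [mem_coe, mem_Ioo]
      exact ⟨h0, hk⟩
    · rw [SetLike.mem_coe, Ideal.mem_comap, RingHom.coe_pow]
      have h2 : σ^[k] b = (σ^[k] b - b) + b := by ring
      change σ^[k] b ∈ Q
      rw [h2]
      exact Q.add_mem h hb

end general

section desc

variable {A B : Type} [CommRing A] [CommRing B] [IsDomain B] {p : ℕ} [hp : Fact p.Prime]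
  (σ : B ≃+* B) (hσ : ∀ x, σ^[p] x = x) (j : A →+* B) (hj : Function.Injective j)
  (hfix : ∀ b, σ b = b ↔ ∃ a, j a = b)

include hσ hj hfix in
/-- the case of a point where `σ` is not trivial -/
theorem case1 [IsNoetherianRing A] (q : Ideal A) [q.IsPrime] (Q : Ideal B) [hQ : Q.IsPrime]
    [IsRegularLocalRing (Localization.AtPrime Q)] (hq : q = Q.comap j) (b : B)
    (hb : ∀ k, 0 < k → k < p → σ^[k] b - b ∉ Q) :
    IsRegularLocalRing (Localization.AtPrime q) := by
  have hcomp : (Localization.localRingHom q Q j hq).comp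
      (algebraMap A (Localization.AtPrime q)) =
      (algebraMap B (Localization.AtPrime Q)).comp j := by
    ext a
    exact Localization.localRingHom_to_map q Q j hq a
  refine loc_reg σ hσ j hj hfix q Q hq b ?_ ?_
  · intro m h0 hm h
    apply hb m h0 hm
    rw [h, sub_self]
    exact Q.zero_mem
  · intro c
    obtain ⟨c1, t, rfl⟩ := IsLocalization.exists_mk'_eq Q.primeCompl c
    obtain ⟨g1, hg1⟩ := (mem_lifts _).1 (lift σ j hfix (GG_map σ hσ b c1))
    obtain ⟨s1, hs1⟩ := (mem_lifts _).1 (lift σ j hfix (GG_map σ hσ b (t : B)))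
    refine ⟨g1.map (algebraMap A _), s1.map (algebraMap A _), ?_, ?_⟩
    · rw [eval₂_map, hcomp, ← hom_eval₂, ← eval_map, hs1, GG_eval]
      refine IsLocalization.map_units (Localization.AtPrime Q) (⟨_, ?_⟩ : Q.primeCompl)
      refine Submonoid.mul_mem _ t.2 ?_
      refine Submonoid.prod_mem _ fun i hi => ?_
      rw [mem_erase] at hi
      have h1 := hb i.val (Nat.pos_of_ne_zero fun h => hi.1 ((ZMod.val_eq_zero i).1 h))
        (ZMod.val_lt i)
      intro h2
      apply h1
      have h3 : σ^[i.val] b - b = -(b - ob σ b i) := by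
        unfold ob
        ring
      rw [h3]
      exact Q.neg_mem h2
    · rw [eval₂_map, eval₂_map, hcomp, ← hom_eval₂, ← hom_eval₂, ← eval_map, ← eval_map, hs1, hg1,
        GG_eval, GG_eval, map_mul, map_mul, ← mul_assoc, IsLocalization.mk'_spec]

include hσ hj hfix in
/-- the case of a point where `σ` is trivial -/
theorem case2 [IsNoetherianRing A] (q : Ideal A) [q.IsPrime] (Q : Ideal B) [hQ : Q.IsPrime]
    [IsRegularLocalRing (Localization.AtPrime Q)] (hq : q = Q.comap j)
    (htr : ∀ x, σ x - x ∈ Q) (hne : ∃ x, σ x ≠ x) (b : B)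
    (hb : ∀ c, ∃ s, s ∉ Q ∧ (σ b - b) ∣ s * (σ c - c)) :
    IsRegularLocalRing (Localization.AtPrime q) := by
  have hQst : ∀ x, σ x ∈ Q ↔ x ∈ Q := by
    intro x
    constructor
    · intro h
      have h1 : x = σ x - (σ x - x) := by ring
      rw [h1]
      exact Q.sub_mem h (htr x)
    · intro h
      have h1 : σ x = (σ x - x) + x := by ring
      rw [h1]
      exact Q.add_mem (htr x) h
  have hQc : Q = Q.comap (σ : B →+* B) := by
    ext x
    rw [Ideal.mem_comap]
    exact (hQst x).symm
  have hBinj : Function.Injective (algebraMap B (Localization.AtPrime Q)) :=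
    IsLocalization.injective _ Q.primeCompl_le_nonZeroDivisors
  haveI : IsDomain (Localization.AtPrime Q) :=
    IsLocalization.isDomain_localization Q.primeCompl_le_nonZeroDivisors
  have htne : σ b - b ≠ 0 := by
    intro h0
    obtain ⟨x, hx⟩ := hne
    obtain ⟨s, hs, h1⟩ := hb x
    rw [h0, zero_dvd_iff] at h1
    rcases mul_eq_zero.1 h1 with h2 | h2
    · exact hs (h2 ▸ Q.zero_mem)
    · exact hx (sub_eq_zero.1 h2)
  let τ : Localization.AtPrime Q →+* Localization.AtPrime Q :=
    Localization.localRingHom Q Q (σ : B →+* B) hQc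
  let al := algebraMap B (Localization.AtPrime Q)
  have hτal : ∀ x : B, τ (al x) = al (σ x) := fun x =>
    Localization.localRingHom_to_map Q Q (σ : B →+* B) hQc x
  have hτal' : ∀ (n : ℕ) (x : B), τ^[n] (al x) = al (σ^[n] x) := by
    intro n
    induction n with
    | zero => exact fun x => rfl
    | succ n ih =>
      intro x
      rw [Function.iterate_succ_apply', ih, hτal, ← Function.iterate_succ_apply' (⇑σ)]
  have hfrac : ∀ x : Localization.AtPrime Q, ∃ r s : B, s ∉ Q ∧ x * al s = al r := by
    intro x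
    obtain ⟨r, s, rfl⟩ := IsLocalization.exists_mk'_eq Q.primeCompl x
    exact ⟨r, s, s.2, IsLocalization.mk'_spec _ _ _⟩
  have hunit : ∀ s : B, s ∉ Q → IsUnit (al s) := fun s hs =>
    IsLocalization.map_units (Localization.AtPrime Q) (⟨s, hs⟩ : Q.primeCompl)
  have hτp : ∀ x, τ^[p] x = x := by
    intro x
    obtain ⟨r, s, hs, h⟩ := hfrac x
    have h1 := congrArg (τ^[p]) h
    rw [iterate_map_mul, hτal', hτal', hσ, hσ, ← h] at h1
    exact (hunit s hs).mul_right_cancel h1
  have hdiff : ∀ (x : Localization.AtPrime Q) (r s : B), x * al s = al r →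
      (τ x - x) * (al (σ s) * al s) = al (σ r - r) * al s - al r * al (σ s - s) := by
    intro x r s h
    have h1 := congrArg τ h
    rw [map_mul, hτal, hτal] at h1
    rw [map_sub, map_sub]
    linear_combination al s * h1 - al (σ s) * h
  have hm : ∀ x, τ x - x ∈ maximalIdeal (Localization.AtPrime Q) := by
    intro x
    obtain ⟨r, s, hs, h⟩ := hfrac x
    have h1 := hdiff x r s h
    have h2 : (τ x - x) * (al (σ s) * al s) ∈ maximalIdeal (Localization.AtPrime Q) := by
      rw [h1]
      refine Ideal.sub_mem _ (Ideal.mul_mem_right _ _ ?_) (Ideal.mul_mem_left _ _ ?_)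
      · exact (IsLocalization.AtPrime.to_map_mem_maximal_iff _ Q _).2 (htr r)
      · exact (IsLocalization.AtPrime.to_map_mem_maximal_iff _ Q _).2 (htr s)
    have h3 : IsUnit (al (σ s) * al s) :=
      (hunit _ (fun h => hs ((hQst s).1 h))).mul (hunit s hs)
    exact (Ideal.mul_unit_mem_iff_mem _ h3).1 h2
  have hdiv0 : ∀ x : B, al (σ b - b) ∣ al (σ x - x) := by
    intro x
    obtain ⟨s, hs, h1⟩ := hb x
    have h2 := map_dvd al h1
    rw [map_mul] at h2
    exact ((hunit s hs).dvd_mul_left).1 h2
  have hdiv : ∀ x, (τ (al b) - al b) ∣ τ x - x := by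
    intro x
    have ht : τ (al b) - al b = al (σ b - b) := by rw [hτal, map_sub]
    rw [ht]
    obtain ⟨r, s, hs, h⟩ := hfrac x
    have h1 := hdiff x r s h
    have h3 : IsUnit (al (σ s) * al s) :=
      (hunit _ (fun h => hs ((hQst s).1 h))).mul (hunit s hs)
    rw [← h3.dvd_mul_right, h1]
    exact dvd_sub (Dvd.dvd.mul_right (hdiv0 r) _) (Dvd.dvd.mul_left (hdiv0 s) _)
  have htne' : τ (al b) - al b ≠ 0 := by
    rw [hτal, ← map_sub]
    intro h
    exact htne (hBinj (by rw [map_zero]; exact h))
  have hinv : ∀ x, τ x = x → ∃ a, Localization.localRingHom q Q j hq a = x := by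
    intro x hx
    obtain ⟨r, s, hs, h⟩ := hfrac x
    let s' : B := ∏ i ∈ range (p - 1), σ^[i + 1] s
    have hn : s' * s = ∏ i ∈ range p, σ^[i] s := by
      have h1 : p = (p - 1) + 1 := by have := hp.out.pos; omega
      rw [h1, prod_range_succ']
      rfl
    have hσn : σ (s' * s) = s' * s := by
      have h1 : σ (∏ i ∈ range p, σ^[i] s) = ∏ i ∈ range p, σ^[i + 1] s := by
        rw [map_prod]
        exact prod_congr rfl fun i _ => (Function.iterate_succ_apply' (⇑σ) i s).symm
      have h2 := prod_range_succ' (fun i => σ^[i] s) p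
      have h3 := prod_range_succ (fun i => σ^[i] s) p
      rw [hn, h1]
      rw [h3, hσ] at h2
      have hs0 : s ≠ 0 := fun h => hs (h ▸ Q.zero_mem)
      exact (mul_right_cancel₀ hs0 h2).symm
    have hnQ : s' * s ∉ Q := by
      rw [hn]
      have h1 : ∀ i, σ^[i] s ∉ Q := by
        intro i
        induction i with
        | zero => exact hs
        | succ i ih =>
          rw [Function.iterate_succ_apply', hQst]
          exact ih
      exact Submonoid.prod_mem Q.primeCompl fun i _ => h1 i
    have h1 : x * al (s' * s) = al (s' * r) := by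
      rw [map_mul, map_mul]
      linear_combination al s' * h
    have h2 : σ (s' * r) = s' * r := by
      have h3 := congrArg τ h1
      rw [map_mul τ, hx, hτal, hτal, hσn, h1] at h3
      exact (hBinj h3).symm
    obtain ⟨a, ha⟩ := (hfix _).1 h2
    obtain ⟨n, hn'⟩ := (hfix _).1 hσn
    have hnq : n ∉ q := by
      rw [hq, Ideal.mem_comap, hn']
      exact hnQ
    refine ⟨IsLocalization.mk' _ a (⟨n, hnq⟩ : q.primeCompl), ?_⟩
    rw [Localization.localRingHom_mk']
    rw [IsLocalization.mk'_eq_iff_eq_mul]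
    change al (j a) = x * al (j n)
    rw [ha, hn', h1]
  refine loc_reg σ hσ j hj hfix q Q hq b ?_ ?_
  · intro m h0 hm h
    apply htne
    obtain ⟨k, hk⟩ := iter_inv σ hσ hp.out h0 hm
    have h1 : Function.IsPeriodicPt σ m b := h
    have h2 := h1.const_mul k
    rw [← hk b, sub_eq_zero]
    exact h2
  · intro c
    obtain ⟨N, hN1, hN2⟩ := core p hp.out τ hτp hm (al b) htne' hdiv c
    have h1 : N ∈ lifts (Localization.localRingHom q Q j hq) := by
      rw [lifts_iff_coeff_lifts]
      intro n
      have h1 := congrArg (fun P => P.coeff n) hN1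
      simp only [coeff_map] at h1
      exact hinv _ h1
    obtain ⟨g, hg⟩ := (mem_lifts _).1 h1
    refine ⟨g, 1, ?_, ?_⟩
    · rw [eval₂_one]
      exact isUnit_one
    · rw [eval₂_one, mul_one, ← eval_map, hg]
      exact hN2.symm

end desc

/-- the target -/
theorem t_DESC : Pool.Agent.Y223.G.S_DESC := by
  intro B _ _ _ p hp σ hσ hne A _ _ j hj hfix hQ
  haveI : Fact p.Prime := ⟨hp⟩
  rw [isRegularRing_iff]
  intro q hq
  algebraize [j]
  haveI : Algebra.IsIntegral A B := by
    refine ⟨fun b => ?_⟩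
    obtain ⟨PA, h1, h2⟩ := exists_PA σ hσ j hfix b
    refine ⟨PA, h2, ?_⟩
    change eval₂ j b PA = 0
    rw [← eval_map, h1, PP_eval]
  obtain ⟨Q, -, hQp, hQq⟩ := Ideal.exists_ideal_over_prime_of_isIntegral q (⊥ : Ideal B) (by
    intro x hx
    rw [Ideal.mem_comap, Ideal.mem_bot] at hx
    have h1 : x = 0 := hj (by rw [map_zero]; exact hx)
    rw [h1]
    exact q.zero_mem)
  have hQq' : q = Q.comap j := hQq.symm
  by_cases htr : ∀ x, σ x - x ∈ Q
  · obtain ⟨b, hb⟩ := hQ Q hQp
    exact case2 σ hσ j hj hfix q Q hQq' htr hne b hb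
  · rw [not_forall] at htr
    obtain ⟨c, hc⟩ := htr
    obtain ⟨b, hb⟩ := exists_sep σ hσ hp Q c hc
    exact case1 σ hσ j hj hfix q Q hQq' b hb

end Pool.Agent.Y894.G
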