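import Pool.Agent.Y894.G.Core
import Pool.Agent.Y223.INV.Desc
import Pool.Agent.Y223.G.Stm

/-!
# Project G, G-DESC: invariants of an automorphism of prime order
-/

set_option autoImplicit false
set_option linter.unusedSectionVars false

namespace Pool.Agent.Y894.G

open Polynomial Finset IsLocalRing

section poly

variable {B : Type} [CommRing B] {p : ℕ} (σ : B ≃+* B)

/-- the orbit -/
def ob (x : B) (i : ZMod p) : B := σ^[i.val] x

variable [hp : Fact p.Prime] (hσ : ∀ x, σ^[p] x = x)

include hσ in
lemma ob_succ (x : B) (i : ZMod p) : σ (ob σ x i) = ob σ x (i + 1) := by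
  haveI : Fact (1 < p) := ⟨hp.out.one_lt⟩
  unfold ob
  rw [ZMod.val_add, ZMod.val_one]
  have h : Function.IsPeriodicPt σ p x := hσ x
  rw [h.iterate_mod_apply, Function.iterate_succ_apply']

lemma ob_zero (x : B) : ob (p := p) σ x 0 = x := by
  unfold ob
  rw [ZMod.val_zero]
  rfl

/-- the polynomial with the conjugates of `b` as roots -/
noncomputable def PP (p : ℕ) [Fact p.Prime] (b : B) : B[X] := ∏ i : ZMod p, (X - C (ob σ b i))

/-- the Lagrange type polynomial -/
noncomputable def GG (p : ℕ) [Fact p.Prime] (b c : B) : B[X] :=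
  ∑ k : ZMod p, C (ob σ c k) * ∏ i ∈ univ.erase k, (X - C (ob σ b i))

include hσ in
lemma PP_map (b : B) : (PP σ p b).map (σ : B →+* B) = PP σ p b := by
  unfold PP
  rw [Polynomial.map_prod]
  rw [← Equiv.prod_comp (Equiv.addRight (1 : ZMod p)) (fun i => X - C (ob σ b i))]
  refine prod_congr rfl fun i _ => ?_
  rw [Polynomial.map_sub, map_X, map_C, Equiv.coe_addRight, ← ob_succ σ hσ]
  rfl

include hσ in
lemma GG_map (b c : B) : (GG σ p b c).map (σ : B →+* B) = GG σ p b c := by
  unfold GG
  rw [Polynomial.map_sum]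
  rw [← Equiv.sum_comp (Equiv.addRight (1 : ZMod p))
    (fun k => C (ob σ c k) * ∏ i ∈ univ.erase k, (X - C (ob σ b i)))]
  refine sum_congr rfl fun k _ => ?_
  rw [Polynomial.map_mul, map_C, Equiv.coe_addRight, ← ob_succ σ hσ c k]
  congr 1
  rw [Polynomial.map_prod]
  refine prod_equiv (Equiv.addRight (1 : ZMod p)) ?_ ?_
  · intro i
    rw [mem_erase, mem_erase, Equiv.coe_addRight]
    simp
  · intro i _
    rw [Polynomial.map_sub, map_X, map_C, Equiv.coe_addRight, ← ob_succ σ hσ]
    rfl

lemma PP_monic (b : B) : (PP σ p b).Monic := monic_prod_of_monic _ _ fun _ _ => monic_X_sub_C _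

lemma PP_eval (b : B) : (PP σ p b).eval b = 0 := by
  unfold PP
  rw [eval_prod]
  apply prod_eq_zero (mem_univ 0)
  rw [ob_zero]
  simp

lemma GG_eval (b c : B) : (GG σ p b c).eval b =
    c * ∏ i ∈ (univ : Finset (ZMod p)).erase 0, (b - ob σ b i) := by
  unfold GG
  rw [eval_finset_sum, sum_eq_single 0]
  · rw [eval_mul, eval_C, ob_zero, eval_prod]
    congr 1
    exact prod_congr rfl fun i _ => by rw [eval_sub, eval_X, eval_C]
  · intro k _ hk
    rw [eval_mul, eval_prod]
    rw [prod_eq_zero (mem_erase.2 ⟨Ne.symm hk, mem_univ 0⟩), mul_zero]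
    rw [ob_zero]
    simp
  · intro h
    exact absurd (mem_univ _) h

variable [IsDomain B]

lemma iter_inj (n : ℕ) : Function.Injective (σ^[n]) := σ.injective.iterate n

lemma ob_inj {b : B} (hd : ∀ m, 0 < m → m < p → σ^[m] b ≠ b) :
    Function.Injective (ob (p := p) σ b) := by
  intro i k h
  unfold ob at h
  by_contra hik
  have hv : i.val ≠ k.val := fun h => hik (ZMod.val_injective p h)
  have hi := ZMod.val_lt i
  have hk := ZMod.val_lt k
  rcases lt_or_gt_of_ne hv with h1 | h1
  · obtain ⟨m, hm⟩ := Nat.exists_eq_add_of_lt h1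
    have h2 : k.val = i.val + (m + 1) := by omega
    rw [h2, Function.iterate_add_apply] at h
    exact hd (m + 1) (by omega) (by omega) ((iter_inj σ _ h).symm)
  · obtain ⟨m, hm⟩ := Nat.exists_eq_add_of_lt h1
    have h2 : i.val = k.val + (m + 1) := by omega
    rw [h2, Function.iterate_add_apply] at h
    exact hd (m + 1) (by omega) (by omega) (iter_inj σ _ h)

lemma PP_dvd {b : B} (hd : ∀ m, 0 < m → m < p → σ^[m] b ≠ b) {g : B[X]}
    (hg : ∀ i : ZMod p, g.eval (ob σ b i) = 0) : PP σ p b ∣ g := by
  by_cases hg0 : g = 0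
  · rw [hg0]
    exact dvd_zero _
  have h1 : PP σ p b = (((univ : Finset (ZMod p)).val.map (ob σ b)).map
      (fun a => X - C a)).prod := by
    rw [Multiset.map_map]
    rfl
  rw [h1, Multiset.prod_X_sub_C_dvd_iff_le_roots hg0, Multiset.le_iff_subset]
  · intro x hx
    rw [Multiset.mem_map] at hx
    obtain ⟨i, _, rfl⟩ := hx
    rw [mem_roots hg0]
    exact hg i
  · exact Multiset.Nodup.map (ob_inj σ hd) (univ : Finset (ZMod p)).nodup

end poly

section desc

variable {A B : Type} [CommRing A] [CommRing B] [IsDomain B] {p : ℕ} [hp : Fact p.Prime]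
  (σ : B ≃+* B) (hσ : ∀ x, σ^[p] x = x) (j : A →+* B) (hj : Function.Injective j)
  (hfix : ∀ b, σ b = b ↔ ∃ a, j a = b)

include hfix in
lemma comp_j : (σ : B →+* B).comp j = j := by
  ext a
  exact (hfix (j a)).2 ⟨a, rfl⟩

include hfix in
lemma lift {g : B[X]} (hg : g.map (σ : B →+* B) = g) : g ∈ lifts j := by
  rw [lifts_iff_coeff_lifts]
  intro n
  have h1 := congrArg (fun P => P.coeff n) hg
  simp only [coeff_map] at h1
  exact (hfix _).1 h1

include hσ hfix in
lemma exists_PA (b : B) : ∃ PA : A[X], PA.map j = PP σ p b ∧ PA.Monic := by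
  obtain ⟨PA, h1, _, h2⟩ := lifts_and_degree_eq_and_monic
    (lift σ j hfix (PP_map σ hσ b)) (PP_monic σ b)
  exact ⟨PA, h1, h2⟩

include hfix in
lemma eval_iter (g : A[X]) (y : B) (h : eval₂ j y g = 0) (m : ℕ) : eval₂ j (σ^[m] y) g = 0 := by
  induction m with
  | zero => exact h
  | succ m ih =>
    have h1 := hom_eval₂ g j (σ : B →+* B) (σ^[m] y)
    rw [comp_j σ j hfix, ih, map_zero] at h1
    rw [Function.iterate_succ_apply']
    exact h1.symm

include hσ hj hfix in
/-- the local statement -/
theorem loc_reg [IsNoetherianRing A] (q : Ideal A) [q.IsPrime] (Q : Ideal B) [Q.IsPrime]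
    [IsRegularLocalRing (Localization.AtPrime Q)] (hq : q = Q.comap j) (b : B)
    (hd : ∀ m, 0 < m → m < p → σ^[m] b ≠ b)
    (hsurj : ∀ c : Localization.AtPrime Q, ∃ g s : (Localization.AtPrime q)[X],
      IsUnit (eval₂ (Localization.localRingHom q Q j hq) (algebraMap B _ b) s) ∧
      c * eval₂ (Localization.localRingHom q Q j hq) (algebraMap B _ b) s =
        eval₂ (Localization.localRingHom q Q j hq) (algebraMap B _ b) g) :
    IsRegularLocalRing (Localization.AtPrime q) := by
  set jq := Localization.localRingHom q Q j hq with hjq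
  obtain ⟨PA, hPA, hPm⟩ := exists_PA σ hσ j hfix b
  have hcomp : jq.comp (algebraMap A (Localization.AtPrime q)) =
      (algebraMap B (Localization.AtPrime Q)).comp j := by
    ext a
    exact Localization.localRingHom_to_map q Q j hq a
  have hBinj : Function.Injective (algebraMap B (Localization.AtPrime Q)) :=
    IsLocalization.injective _ Q.primeCompl_le_nonZeroDivisors
  have hmapeval : ∀ g : A[X], eval₂ jq (algebraMap B (Localization.AtPrime Q) b)
      (g.map (algebraMap A (Localization.AtPrime q))) =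
      algebraMap B (Localization.AtPrime Q) (eval₂ j b g) := by
    intro g
    rw [eval₂_map, hcomp, hom_eval₂]
  haveI hloc : IsLocalHom jq := Localization.isLocalHom_localRingHom q Q j hq
  refine Pool.Agent.Y223.INV.desc (C' := Localization.AtPrime Q)
    (eval₂RingHom jq (algebraMap B (Localization.AtPrime Q) b))
    (PA.map (algebraMap A (Localization.AtPrime q))) (hPm.map _) ?_ ?_ hsurj ?_
  · rw [coe_eval₂RingHom, hmapeval]
    have h1 : eval₂ j b PA = 0 := by
      rw [← eval_map, hPA, PP_eval]
    rw [h1, map_zero]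
  · intro g hg
    rw [coe_eval₂RingHom] at hg
    obtain ⟨s, hs⟩ := IsLocalization.integerNormalization_map_to_map q.primeCompl g
    set g0 := IsLocalization.integerNormalization q.primeCompl g with hg0
    have h1 : eval₂ j b g0 = 0 := by
      apply hBinj
      have h0 : (s : A) • g = C (algebraMap A (Localization.AtPrime q) s) * g := by
        ext n
        rw [coeff_C_mul, coeff_smul, Algebra.smul_def]
      rw [← hmapeval, hs, h0, map_zero, eval₂_mul, hg, mul_zero]
    have h2 : PP σ p b ∣ g0.map j := by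
      apply PP_dvd σ hd
      intro i
      rw [eval_map]
      exact eval_iter σ j hfix g0 b h1 _
    rw [← hPA, map_dvd_map j hj hPm] at h2
    have h3 := Polynomial.map_dvd (algebraMap A (Localization.AtPrime q)) h2
    rw [hs] at h3
    obtain ⟨h, hh⟩ := h3
    have hsu : IsUnit (algebraMap A (Localization.AtPrime q) s) :=
      IsLocalization.map_units _ s
    obtain ⟨v, hv⟩ := hsu.exists_left_inv
    refine ⟨C v * h, ?_⟩
    have h4 : g = C v * ((s : A) • g) := by
      ext n
      rw [coeff_C_mul, coeff_smul, Algebra.smul_def, ← mul_assoc, hv, one_mul]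
    rw [h4, hh]
    ring
  · intro a ha
    rw [coe_eval₂RingHom, eval₂_C] at ha
    exact isUnit_of_map_unit jq a ha

end desc

end Pool.Agent.Y894.G
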